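import Pool.Agent.W622.ETC.Stm

set_option autoImplicit false

namespace Pool.Agent.W298.ELT

open Pool.Agent.W622.ETC Module

theorem t_BEV (hEVEN : S_EVEN) (hIDIM : S_IDIM) (hA4 : S_A4) (hFIND : S_FIND) : S_BEV := by
  intro V _ _ _ A
  have h1 : AltFam A → ∀ F, LocBlock A F → Even (finrank (ZMod 2) F) ∧ 2 ≤ finrank (ZMod 2) F := by
    intro hA F hF
    obtain ⟨ω, hω, hFω, _⟩ := hF
    have he : Even (finrank (ZMod 2) F) := by
      rw [hFω]
      exact hEVEN V ω (hA ω hω.1)
    refine ⟨he, ?_⟩
    have hne : finrank (ZMod 2) F ≠ 0 := by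
      intro h
      rw [Submodule.finrank_eq_zero, hFω, sp_eq_bot] at h
      exact hω.2.1 h
    obtain ⟨k, hk⟩ := he
    omega
  refine ⟨h1, ?_, ?_⟩
  · intro hMC F hF
    rcases hF.1 with h | h
    · exact absurd (hA4 V A F hMC h) hF.2
    · exact h
  · intro hFW hno
    have hloc : ∀ F ∈ GB A, LocBlock A F := by
      intro F hF
      rcases hF.1 with h | h
      · exact absurd h.1 (hno F)
      · exact h
    have hind : sSupIndep (GB A) := by
      have := hFIND V A ∅ hFW (Set.empty_subset _) (by
        rw [sSup_empty]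
        intro h
        have h4 := hFW.four
        have h5 : finrank (ZMod 2) (⊥ : DSub V) = finrank (ZMod 2) (⊤ : DSub V) := by rw [h]
        rw [finrank_bot, finrank_top, finrank_Dl] at h5
        omega)
      rwa [Set.union_empty] at this
    have hfin : (GB A).Finite := Set.toFinite _
    have h2 := hIDIM V hfin.toFinset (by rwa [hfin.coe_toFinset])
    rw [hfin.coe_toFinset] at h2
    unfold PP
    rw [h2]
    apply Finset.even_sum
    intro X hX
    exact (h1 hFW.mc.alt X (hloc X (hfin.mem_toFinset.1 hX))).1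

end Pool.Agent.W298.ELT
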