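import Pool.Agent.W622.ETC.Stm

set_option autoImplicit false

namespace Pool.Agent.W298.ELT

open Pool.Agent.W622.ETC Module

theorem t_L2 : S_L2 := by
  intro V _ _ _ A hA hL hk
  by_cases h0 : ∀ ω ∈ A, ω = 0
  · have : A = ⊥ := by
      rw [eq_bot_iff]
      intro ω hω
      rw [Submodule.mem_bot]
      exact h0 ω hω
    rw [this]
    exact El.zero
  · push Not at h0
    obtain ⟨ω, hω, hne⟩ := h0
    have hsurj : ∀ η ∈ A, η ≠ 0 → Function.Surjective η := by
      intro η hη hη0
      have hinj : Function.Injective η := by
        rw [← LinearMap.ker_eq_bot, LinearMap.ker_eq_bot']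
        intro b hb
        by_contra hb0
        exact hη0 (hk b hb0 η hη hb)
      exact (LinearMap.injective_iff_surjective_of_finrank_eq_finrank finrank_Dl.symm).1 hinj
    have hall : ∀ η ∈ A, η = 0 ∨ η = ω := by
      intro η hη
      by_cases hη0 : η = 0
      · exact Or.inl hη0
      · right
        obtain ⟨a, ha⟩ : ∃ a, ω a ≠ 0 := by
          by_contra hc
          push Not at hc
          exact hne (LinearMap.ext hc)
        obtain ⟨a', ha'⟩ := hsurj η hη hη0 (ω a)
        have haa : a = a' := by
          by_contra hne'
          obtain ⟨ζ, hζ, h1, h2⟩ := hL ω hω η hη a a' ha'.symm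
          have h3 : ζ (a + a') = 0 := by rw [map_add, h1, h2, vadd]
          have h4 : a + a' ≠ 0 := fun h => hne' (add_eq_zero'.1 h)
          have h5 := hk _ h4 ζ hζ h3
          rw [h5] at h1
          exact ha h1.symm
        subst haa
        have ha0 : a ≠ 0 := by
          rintro rfl
          exact ha (map_zero ω)
        have h6 : (η + ω) a = 0 := by rw [LinearMap.add_apply, ha', vadd]
        exact add_eq_zero'.1 (hk a ha0 _ (A.add_mem hη hω) h6)
    have hspan : A = Submodule.span (ZMod 2) {ω} := by
      apply le_antisymm
      · intro η hη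
        rcases hall η hη with h | h
        · rw [h]; exact Submodule.zero_mem _
        · rw [h]; exact Submodule.mem_span_singleton_self ω
      · rw [Submodule.span_singleton_le_iff_mem]
        exact hω
    rw [hspan]
    exact El.loc ω (hA ω hω)

end Pool.Agent.W298.ELT
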